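import Pool.Agent.Helper79_Morse.Word
import Pool.Agent.Helper79_Real.Count

/-!
Weights, blocks and counting functions.
-/

namespace Pool.Agent.Helper79_Morse

/-- the weight of a letter -/
def wtl : L → ℕ
  | L.a => 2
  | L.x => 1
  | L.y => 2

/-- the weight of a word -/
def wt : List L → ℕ
  | [] => 0
  | (g :: w) => wtl g + wt w

@[simp] theorem wt_nil : wt [] = 0 := rfl
@[simp] theorem wt_cons (g : L) (w : List L) : wt (g :: w) = wtl g + wt w := rfl
@[simp] theorem wtl_a : wtl L.a = 2 := rfl
@[simp] theorem wtl_x : wtl L.x = 1 := rfl
@[simp] theorem wtl_y : wtl L.y = 2 := rfl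

theorem wt_append (v w : List L) : wt (v ++ w) = wt v + wt w := by
  induction v with
  | nil => simp
  | cons g v ih => simp [ih, add_assoc]

theorem length_le_wt (w : List L) : w.length ≤ wt w := by
  induction w with
  | nil => simp
  | cons g w ih => cases g <;> simp <;> omega

theorem wt_le (w : List L) : wt w ≤ 2 * w.length := by
  induction w with
  | nil => simp
  | cons g w ih => cases g <;> simp <;> omega

/-- the elements of the Klein group generated by `x` and `y` -/
inductive V | o | x | y | b
deriving DecidableEq

instance : Fintype V := ⟨⟨[V.o, V.x, V.y, V.b], by decide⟩, fun g => by cases g <;> decide⟩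

/-- the word of a block -/
def vw : V → List L
  | V.o => []
  | V.x => [L.x]
  | V.y => [L.y]
  | V.b => [L.x, L.y]

/-- the word `v a u₁ a u₂ ⋯` of a list of blocks -/
def bw (v : V) : List V → List L
  | [] => vw v
  | (u :: l) => vw v ++ L.a :: bw u l

@[simp] theorem bw_nil (v : V) : bw v [] = vw v := rfl
@[simp] theorem bw_cons (v u : V) (l : List V) : bw v (u :: l) = vw v ++ L.a :: bw u l := rfl

/-- the set of values of the words of weight at most `n` -/
def NS (n : ℕ) : Set (Equiv.Perm ℕ) := {g | ∃ w, wt w ≤ n ∧ val w = g}

/-- the number of values of the words of weight at most `n` -/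
noncomputable def Nw (n : ℕ) : ℕ := (NS n).ncard

/-- the set of values of the words of length at most `n` -/
def GS (n : ℕ) : Set (Equiv.Perm ℕ) := {g | ∃ w : List L, w.length ≤ n ∧ val w = g}

/-- the number of values of the words of length at most `n` -/
noncomputable def gam (n : ℕ) : ℕ := (GS n).ncard

end Pool.Agent.Helper79_Morse
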