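import Pool.Agent.Helper79_Real.Defs

/-!
Definitions used by the statement: substitution subshifts, the shift, the topological full group,
the Morse (Thue-Morse) substitution.
-/

namespace Pool.Agent.Helper79_Morse

/-- A substitution `σ : A → A⁺`, extended to words by concatenation. -/
def extend {A : Type*} (σ : A → List A) (w : List A) : List A := w.flatMap σ

/-- The finite subword `x i, x (i + 1), …, x (i + m - 1)` of the bi-infinite sequence `x`. -/
def window {A : Type*} (x : ℤ → A) (i : ℤ) (m : ℕ) : List A :=
  List.ofFn fun j : Fin m => x (i + ((j : ℕ) : ℤ))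

/-- The substitution subshift: the bi-infinite sequences all of whose finite subwords occur in some
`σ^n(a)` with `a` a letter and `n ≥ 1`. -/
def Subshift {A : Type*} (σ : A → List A) : Set (ℤ → A) :=
  {x | ∀ (i : ℤ) (m : ℕ), ∃ (a : A) (n : ℕ), 1 ≤ n ∧ window x i m <:+: (extend σ)^[n] [a]}

theorem translate_mem {A : Type*} {σ : A → List A} {x : ℤ → A} (hx : x ∈ Subshift σ) (k : ℤ) :
    (fun i => x (i + k)) ∈ Subshift σ := by
  intro i m
  obtain ⟨a, n, hn, h⟩ := hx (i + k) m
  refine ⟨a, n, hn, ?_⟩
  have e : window (fun i => x (i + k)) i m = window x (i + k) m := by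
    unfold window
    congr 1
    funext j
    exact congrArg x (by ring)
  rw [e]
  exact h

/-- The left shift on the substitution subshift, a homeomorphism (for the topology induced by the
product topology of `ℤ → A`). -/
def shift {A : Type*} [TopologicalSpace A] (σ : A → List A) : Subshift σ ≃ₜ Subshift σ where
  toFun x := ⟨fun i => x.1 (i + 1), translate_mem x.2 1⟩
  invFun x := ⟨fun i => x.1 (i + -1), translate_mem x.2 (-1)⟩
  left_inv x := by
    apply Subtype.ext
    funext i
    exact congrArg x.1 (show i + -1 + 1 = i by ring)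
  right_inv x := by
    apply Subtype.ext
    funext i
    exact congrArg x.1 (show i + 1 + -1 = i by ring)
  continuous_toFun := by
    apply Continuous.subtype_mk
    exact continuous_pi fun i => (continuous_apply (i + 1)).comp continuous_subtype_val
  continuous_invFun := by
    apply Continuous.subtype_mk
    exact continuous_pi fun i => (continuous_apply (i + -1)).comp continuous_subtype_val

theorem zpow_apply_add {X : Type*} [TopologicalSpace X] (T : X ≃ₜ X) (m n : ℤ) (x : X) :
    (T ^ (m + n)) x = (T ^ m) ((T ^ n) x) := by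
  rw [zpow_add]
  rfl

/-- The topological full group of the homeomorphism `T` of `X`: the homeomorphisms `g` of `X` for
which there is a continuous map `n : X → ℤ` with `g x = T^(n x) x` for all `x`. -/
def fullGroup {X : Type*} [TopologicalSpace X] (T : X ≃ₜ X) : Subgroup (X ≃ₜ X) where
  carrier := {g | ∃ n : X → ℤ, Continuous n ∧ ∀ x, g x = (T ^ n x) x}
  mul_mem' := by
    rintro g h ⟨n, hn, hg⟩ ⟨m, hm, hh⟩
    refine ⟨fun x => n (h x) + m x, (hn.comp h.continuous).add hm, fun x => ?_⟩
    rw [zpow_apply_add, ← hh x, ← hg (h x)]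
    rfl
  one_mem' := ⟨fun _ => 0, continuous_const, fun x => by rw [zpow_zero]⟩
  inv_mem' := by
    rintro g ⟨n, hn, hg⟩
    refine ⟨fun x => - n (g⁻¹ x), (hn.comp (g⁻¹ : X ≃ₜ X).continuous).neg, fun x => ?_⟩
    have h1 : g (g⁻¹ x) = x := g.apply_symm_apply x
    have h2 := hg (g⁻¹ x)
    rw [h1] at h2
    have h3 := congrArg (T ^ (- n (g⁻¹ x))) h2
    rw [← zpow_apply_add, neg_add_cancel, zpow_zero] at h3
    exact h3.symm

/-- The Morse (Thue-Morse) substitution `0 ↦ 01`, `1 ↦ 10`, with `false` for `0` and `true`
for `1`. -/
def morse : Bool → List Bool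
  | false => [false, true]
  | true => [true, false]

end Pool.Agent.Helper79_Morse
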