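import Pool.Agent.Helper79_Morse.Word

/-!
The Thue-Morse sequence, the local rule giving the letters of the edges, and the three generators.
-/

namespace Pool.Agent.Helper79_Morse

/-- the Thue-Morse sequence -/
def t : ℕ → Bool
  | 0 => false
  | (n + 1) => if (n + 1) % 2 = 1 then !(t ((n + 1) / 2)) else t ((n + 1) / 2)
decreasing_by all_goals omega

theorem t_zero : t 0 = false := by rw [t]

theorem t_odd (n : ℕ) : t (2 * n + 1) = !(t n) := by
  rw [t, if_pos (by omega)]
  congr 2
  omega

theorem t_even (n : ℕ) : t (2 * n) = t n := by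
  rcases Nat.eq_zero_or_pos n with rfl | hn
  · rfl
  · obtain ⟨m, rfl⟩ : ∃ m, n = m + 1 := ⟨n - 1, by omega⟩
    show t (2 * m + 1 + 1) = _
    rw [t, if_neg (by omega)]
    congr 1
    omega

/-- the letter of an edge from the four symbols around it -/
def LAB (p q r s : Bool) : L := if q = r then L.y else if p ≠ q ∧ r ≠ s then L.x else L.a

/-- the letter of the edge `{N - 1, N}` of a bi-infinite sequence -/
def labZ (z : ℤ → Bool) (N : ℤ) : L := LAB (z (N - 2)) (z (N - 1)) (z N) (z (N + 1))

/-- the action of a letter on the line, when the edges carry the letters `lam` -/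
def actZ (lam : ℤ → L) (g : L) (p : ℤ) : ℤ :=
  if lam (p + 1) = g then p + 1 else if lam p = g then p - 1 else p

/-- the action of a word on the line (from the right) -/
def runZ (lam : ℤ → L) (w : List L) (p : ℤ) : ℤ := w.foldr (fun g p => actZ lam g p) p

/-- the Morse subshift -/
abbrev X : Set (ℤ → Bool) := Subshift morse

/-- the Thue-Morse sequence extended by symmetry -/
def z0 (i : ℤ) : Bool := if 0 ≤ i then t i.toNat else t (-1 - i).toNat

/-- the folding of the line on the half line -/
def foldZ (p : ℤ) : ℕ := if 0 ≤ p then p.toNat else (-1 - p).toNat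

/-- the displacement of a letter at a sequence -/
def step (g : L) (z : ℤ → Bool) : ℤ := actZ (labZ z) g 0

theorem shift_zpow_apply (k : ℤ) (z : Subshift morse) (i : ℤ) :
    ((shift morse ^ k) z).1 i = z.1 (i + k) := by
  have hnat : ∀ (n : ℕ) (z : Subshift morse) (i : ℤ),
      ((shift morse ^ n) z).1 i = z.1 (i + n) := by
    intro n
    induction n with
    | zero => intro z i; rw [pow_zero]; show z.1 i = _; simp
    | succ n ih =>
      intro z i
      rw [pow_succ]
      show ((shift morse ^ n) (shift morse z)).1 i = _
      rw [ih]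
      show z.1 (i + n + 1) = _
      congr 1
      push_cast
      ring
  rcases Int.eq_nat_or_neg k with ⟨n, rfl | rfl⟩
  · rw [zpow_natCast]; exact hnat n z i
  · have h1 := hnat n ((shift morse ^ (-(n : ℤ))) z) (i + -(n : ℤ))
    rw [← zpow_natCast, ← zpow_apply_add, add_neg_cancel, zpow_zero] at h1
    rw [show (i + -(n : ℤ) + n) = i by ring] at h1
    exact h1.symm

theorem labZ_shift (k : ℤ) (z : Subshift morse) (N : ℤ) :
    labZ ((shift morse ^ k) z).1 N = labZ z.1 (N + k) := by
  unfold labZ
  simp only [shift_zpow_apply]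
  congr 1 <;> congr 1 <;> ring

end Pool.Agent.Helper79_Morse
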