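import Pool.Agent.Helper79_Morse.Defs

/-!
The group acting on the half line: the edge `{N - 1, N}` of `ℕ` carries a letter `lab N`.
-/

namespace Pool.Agent.Helper79_Morse

inductive L | a | x | y
deriving DecidableEq

instance : Fintype L := ⟨⟨[L.a, L.x, L.y], by decide⟩, fun g => by cases g <;> decide⟩

/-- the letters exchanged on the even side -/
def rho : L → L
  | L.a => L.y
  | L.x => L.y
  | L.y => L.x

/-- the letter of the edge `{N - 1, N}`, `N ≥ 1`: `a` if `N` is odd, `y` if the `2`-adic valuation of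
`N` is odd, `x` if it is even and positive -/
def lab : ℕ → L
  | 0 => L.x
  | (n + 1) => if (n + 1) % 2 = 1 then L.a else rho (lab ((n + 1) / 2))
decreasing_by omega

theorem lab_odd (n : ℕ) : lab (2 * n + 1) = L.a := by
  rw [lab]
  rw [if_pos (by omega)]

theorem lab_even {n : ℕ} (hn : 0 < n) : lab (2 * n) = rho (lab n) := by
  obtain ⟨m, rfl⟩ : ∃ m, n = m + 1 := ⟨n - 1, by omega⟩
  show lab (2 * m + 1 + 1) = _
  rw [lab, if_neg (by omega)]
  congr 2
  omega

/-- the action of a letter on the half line -/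
def actN (g : L) (p : ℕ) : ℕ :=
  if lab (p + 1) = g then p + 1 else if 0 < p ∧ lab p = g then p - 1 else p

theorem lab_ne_succ (p : ℕ) (hp : 0 < p) : lab p ≠ lab (p + 1) := by
  rcases Nat.even_or_odd' p with ⟨k, rfl | rfl⟩
  · rw [lab_odd, lab_even (by omega)]
    cases lab k <;> simp [rho]
  · rw [lab_odd, show 2 * k + 1 + 1 = 2 * (k + 1) by ring, lab_even (by omega)]
    cases lab (k + 1) <;> simp [rho]

theorem actN_actN (g : L) (p : ℕ) : actN g (actN g p) = p := by
  unfold actN
  by_cases h1 : lab (p + 1) = g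
  · rw [if_pos h1]
    rw [if_neg (by
      intro h2
      exact lab_ne_succ (p + 1) (by omega) (h1.trans h2.symm))]
    rw [if_pos ⟨by omega, h1⟩]
    omega
  · rw [if_neg h1]
    by_cases h2 : 0 < p ∧ lab p = g
    · rw [if_pos h2]
      rw [if_pos (by rw [Nat.sub_add_cancel h2.1]; exact h2.2)]
      omega
    · rw [if_neg h2, if_neg h1, if_neg h2]

/-- the letter as a permutation of the half line -/
def gN (g : L) : Equiv.Perm ℕ := ⟨actN g, actN g, actN_actN g, actN_actN g⟩

theorem gN_apply (g : L) (p : ℕ) : gN g p = actN g p := rfl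

theorem gN_mul_self (g : L) : gN g * gN g = 1 := by
  ext p
  exact actN_actN g p

/-- the value of a word -/
def val (w : List L) : Equiv.Perm ℕ := (w.map gN).prod

@[simp] theorem val_nil : val [] = 1 := rfl
@[simp] theorem val_cons (g : L) (w : List L) : val (g :: w) = gN g * val w := by simp [val]
@[simp] theorem val_append (v w : List L) : val (v ++ w) = val v * val w := by simp [val]

/-- the point `2 q + ((s + q) mod 2)` of the half line -/
def enc (q : ℕ) (s : Bool) : ℕ := 2 * q + (if (q % 2 = 1) = (s = true) then 0 else 1)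

/-- the section of a letter: the side `false` is where the multiples of `4` are -/
def secl (s : Bool) : L → List L
  | L.a => []
  | L.x => if s then [] else [L.y]
  | L.y => if s then [L.a] else [L.x]

/-- the final side (words act from the right) -/
def fin (s : Bool) : List L → Bool
  | [] => s
  | (L.a :: w) => !(fin s w)
  | (L.x :: w) => fin s w
  | (L.y :: w) => fin s w

/-- the section of a word at a side -/
def sec (s : Bool) : List L → List L
  | [] => []
  | (g :: w) => secl (fin s w) g ++ sec s w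

@[simp] theorem fin_nil (s : Bool) : fin s [] = s := rfl
@[simp] theorem fin_a (s : Bool) (w : List L) : fin s (L.a :: w) = !(fin s w) := rfl
@[simp] theorem fin_x (s : Bool) (w : List L) : fin s (L.x :: w) = fin s w := rfl
@[simp] theorem fin_y (s : Bool) (w : List L) : fin s (L.y :: w) = fin s w := rfl
@[simp] theorem sec_nil (s : Bool) : sec s [] = [] := rfl
@[simp] theorem sec_cons (s : Bool) (g : L) (w : List L) :
    sec s (g :: w) = secl (fin s w) g ++ sec s w := rfl

theorem fin_append (s : Bool) (v w : List L) : fin s (v ++ w) = fin (fin s w) v := by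
  induction v with
  | nil => rfl
  | cons g v ih => cases g <;> simp [ih]

theorem sec_append (s : Bool) (v w : List L) : sec s (v ++ w) = sec (fin s w) v ++ sec s w := by
  induction v with
  | nil => rfl
  | cons g v ih => simp [ih, fin_append]

theorem fin_not (s : Bool) (w : List L) : fin (!s) w = !(fin s w) := by
  induction w with
  | nil => rfl
  | cons g w ih => cases g <;> simp [ih]

/-- every point of the half line is of the form `enc q s`, uniquely -/
theorem enc_surj (p : ℕ) : ∃ q s, p = enc q s := by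
  rcases Nat.even_or_odd' p with ⟨q, hq⟩
  refine ⟨q, if p % 2 = 0 then decide (q % 2 = 1) else decide (q % 2 = 0), ?_⟩
  unfold enc
  rcases hq with hq | hq <;> rcases Nat.mod_two_eq_zero_or_one q with h | h <;> subst hq <;> simp [h]

theorem enc_inj {q q' : ℕ} {s s' : Bool} (h : enc q s = enc q' s') : q = q' ∧ s = s' := by
  unfold enc at h
  have e : q = q' := by
    split_ifs at h <;> omega
  subst e
  refine ⟨rfl, ?_⟩
  rcases Nat.mod_two_eq_zero_or_one q with h1 | h1 <;> cases s <;> cases s' <;> simp [h1] at h ⊢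

theorem lab_facts (k : ℕ) : lab (2 * (2 * k) + 1) = L.a ∧ lab (2 * (2 * k + 1)) = L.y ∧
    lab (2 * (2 * k + 1) + 1) = L.a ∧ lab (2 * (2 * k + 1 + 1)) = rho (lab (2 * k + 1 + 1)) ∧
    lab (2 * k + 1) = L.a ∧ lab (2 * k + 1 + 1) ≠ L.a := by
  refine ⟨lab_odd _, ?_, lab_odd _, lab_even (by omega), lab_odd _, ?_⟩
  · rw [lab_even (by omega), lab_odd]; rfl
  · rw [show 2 * k + 1 + 1 = 2 * (k + 1) by ring, lab_even (by omega)]
    cases lab (k + 1) <;> simp [rho]

theorem lab_facts' {k : ℕ} (hk : 0 < k) : lab (2 * (2 * k)) = rho (lab (2 * k)) ∧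
    lab (2 * k) ≠ L.a := by
  refine ⟨lab_even (by omega), ?_⟩
  rw [lab_even hk]
  cases lab k <;> simp [rho]

theorem gN_up {g : L} {p : ℕ} (h : lab (p + 1) = g) : gN g p = p + 1 := by
  rw [gN_apply, actN, if_pos h]

theorem gN_down {g : L} {p : ℕ} (h : lab (p + 1) = g) : gN g (p + 1) = p := by
  rw [gN_apply]
  have h2 := gN_up h
  rw [gN_apply] at h2
  have h3 := actN_actN g p
  rw [h2] at h3
  exact h3

theorem gN_stay {g : L} {p : ℕ} (h : lab (p + 1) ≠ g) (h' : 0 < p → lab p ≠ g) :
    gN g p = p := by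
  rw [gN_apply, actN, if_neg h, if_neg (fun h2 => h' h2.1 h2.2)]

theorem enc_even (k : ℕ) : enc (2 * k) false = 2 * (2 * k) ∧ enc (2 * k) true = 2 * (2 * k) + 1 := by
  simp [enc]

theorem enc_odd (k : ℕ) : enc (2 * k + 1) false = 2 * (2 * k + 1) + 1 ∧
    enc (2 * k + 1) true = 2 * (2 * k + 1) := by
  simp [enc]

theorem act_enc_a (q : ℕ) (s : Bool) : gN L.a (enc q s) = enc q (!s) := by
  rcases Nat.even_or_odd' q with ⟨k, rfl | rfl⟩
  · obtain ⟨h1, h2, h3, h4, h5, h6⟩ := lab_facts k
    cases s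
    · rw [(enc_even k).1, gN_up h1]; exact (enc_even k).2.symm
    · rw [(enc_even k).2, gN_down h1]; exact (enc_even k).1.symm
  · obtain ⟨h1, h2, h3, h4, h5, h6⟩ := lab_facts k
    cases s
    · rw [(enc_odd k).1, gN_down h3]; exact (enc_odd k).2.symm
    · rw [(enc_odd k).2, gN_up h3]; exact (enc_odd k).1.symm

theorem act_enc_y_true (q : ℕ) : gN L.y (enc q true) = enc (gN L.a q) true := by
  rcases Nat.even_or_odd' q with ⟨k, rfl | rfl⟩
  · obtain ⟨h1, h2, h3, h4, h5, h6⟩ := lab_facts k
    rw [(enc_even k).2, gN_up (by rw [show 2 * (2 * k) + 1 + 1 = 2 * (2 * k + 1) by ring]; exact h2),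
      gN_up h5, (enc_odd k).2]
    ring
  · obtain ⟨h1, h2, h3, h4, h5, h6⟩ := lab_facts k
    rw [(enc_odd k).2, gN_down h5, (enc_even k).2,
      show 2 * (2 * k + 1) = 2 * (2 * k) + 1 + 1 by ring]
    exact gN_down (by rw [show 2 * (2 * k) + 1 + 1 = 2 * (2 * k + 1) by ring]; exact h2)

theorem act_enc_x_true (q : ℕ) : gN L.x (enc q true) = enc q true := by
  rcases Nat.even_or_odd' q with ⟨k, rfl | rfl⟩
  · obtain ⟨h1, h2, h3, h4, h5, h6⟩ := lab_facts k
    rw [(enc_even k).2]
    apply gN_stay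
    · rw [show 2 * (2 * k) + 1 + 1 = 2 * (2 * k + 1) by ring, h2]; decide
    · intro _; rw [h1]; decide
  · obtain ⟨h1, h2, h3, h4, h5, h6⟩ := lab_facts k
    rw [(enc_odd k).2]
    apply gN_stay
    · rw [h3]; decide
    · intro _; rw [h2]; decide

theorem rho_eq {u g g' : L} (hu : u ≠ L.a) (hg : g = L.x ∧ g' = L.y ∨ g = L.y ∧ g' = L.x) :
    rho u = g ↔ u = g' := by
  rcases hg with ⟨rfl, rfl⟩ | ⟨rfl, rfl⟩ <;> cases u <;> simp_all [rho]

theorem act_enc_xy_false {g g' : L} (hg : g = L.x ∧ g' = L.y ∨ g = L.y ∧ g' = L.x) (q : ℕ) :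
    gN g (enc q false) = enc (gN g' q) false := by
  have ha : g ≠ L.a ∧ g' ≠ L.a := by rcases hg with ⟨rfl, rfl⟩ | ⟨rfl, rfl⟩ <;> decide
  rcases Nat.even_or_odd' q with ⟨k, rfl | rfl⟩
  · obtain ⟨h1, h2, h3, h4, h5, h6⟩ := lab_facts k
    rw [(enc_even k).1]
    by_cases hk : 0 < k ∧ lab (2 * k) = g'
    · obtain ⟨h7, h8⟩ := lab_facts' hk.1
      obtain ⟨j, rfl⟩ : ∃ j, k = j + 1 := ⟨k - 1, by omega⟩
      have e1 : gN g' (2 * (j + 1)) = 2 * j + 1 := by
        rw [show 2 * (j + 1) = 2 * j + 1 + 1 by ring]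
        apply gN_down
        rw [show 2 * j + 1 + 1 = 2 * (j + 1) by ring]
        exact hk.2
      rw [e1, (enc_odd j).1, show 2 * (2 * (j + 1)) = 2 * (2 * j + 1) + 1 + 1 by ring]
      apply gN_down
      rw [show 2 * (2 * j + 1) + 1 + 1 = 2 * (2 * (j + 1)) by ring, h7]
      exact (rho_eq h8 hg).2 hk.2
    · rw [gN_stay (g := g'), (enc_even k).1]
      · apply gN_stay
        · rw [h1]; exact ha.1.symm
        · intro h0
          have h0' : 0 < k := by omega
          obtain ⟨h7, h8⟩ := lab_facts' h0'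
          rw [h7]
          intro h9
          exact hk ⟨h0', (rho_eq h8 hg).1 h9⟩
      · rw [h5]; exact ha.2.symm
      · intro h0 h9
        exact hk ⟨by omega, h9⟩
  · obtain ⟨h1, h2, h3, h4, h5, h6⟩ := lab_facts k
    rw [(enc_odd k).1]
    by_cases hk : lab (2 * k + 1 + 1) = g'
    · rw [gN_up hk, show 2 * k + 1 + 1 = 2 * (k + 1) by ring, (enc_even (k + 1)).1,
        show 2 * (2 * (k + 1)) = 2 * (2 * k + 1) + 1 + 1 by ring]
      apply gN_up
      rw [show 2 * (2 * k + 1) + 1 + 1 = 2 * (2 * k + 1 + 1) by ring, h4]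
      exact (rho_eq h6 hg).2 hk
    · rw [gN_stay (g := g') hk (fun _ => by rw [h5]; exact ha.2.symm), (enc_odd k).1]
      apply gN_stay
      · rw [show 2 * (2 * k + 1) + 1 + 1 = 2 * (2 * k + 1 + 1) by ring, h4]
        intro h9
        exact hk ((rho_eq h6 hg).1 h9)
      · intro _; rw [h3]; exact ha.1.symm

theorem act_enc (g : L) (q : ℕ) (s : Bool) :
    gN g (enc q s) = enc (val (secl s g) q) (fin s [g]) := by
  cases g
  · simp [secl, act_enc_a]
  · cases s
    · simp [secl, act_enc_xy_false (Or.inl ⟨rfl, rfl⟩)]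
    · simp [secl, act_enc_x_true]
  · cases s
    · simp [secl, act_enc_xy_false (Or.inr ⟨rfl, rfl⟩)]
    · simp [secl, act_enc_y_true]

/-- the action of a word in the coordinates given by `enc` -/
theorem run_enc (w : List L) (q : ℕ) (s : Bool) :
    val w (enc q s) = enc (val (sec s w) q) (fin s w) := by
  induction w with
  | nil => rfl
  | cons g w ih =>
    rw [val_cons, Equiv.Perm.mul_apply, ih, act_enc, sec_cons, val_append, Equiv.Perm.mul_apply]
    congr 1
    cases g <;> simp

/-- the recursion of the word problem -/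
theorem val_eq_iff (w w' : List L) :
    val w = val w' ↔ fin false w = fin false w' ∧ ∀ s, val (sec s w) = val (sec s w') := by
  constructor
  · intro h
    have key : ∀ q s, val (sec s w) q = val (sec s w') q ∧ fin s w = fin s w' := by
      intro q s
      have h1 := run_enc w q s
      rw [h, run_enc w' q s] at h1
      obtain ⟨h2, h3⟩ := enc_inj h1
      exact ⟨h2.symm, h3.symm⟩
    exact ⟨(key 0 false).2, fun s => Equiv.ext fun q => (key q s).1⟩
  · rintro ⟨h1, h2⟩
    have h3 : ∀ s, fin s w = fin s w' := by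
      intro s
      cases s
      · exact h1
      · rw [show true = !false from rfl, fin_not, fin_not, h1]
    ext p
    obtain ⟨q, s, rfl⟩ := enc_surj p
    rw [run_enc, run_enc, h2 s, h3 s]

end Pool.Agent.Helper79_Morse
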